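import Mathlib
import Pool.Agent.N256.HN.Defs
import Pool.Agent.N256.HN.Nontriv2

/-!
# A measurably non-trivial smooth time-change of a Heisenberg nilflow which is not weakly mixing

Proof. Let `a` be a suitable Liouville number with approximations `p_k / q_k`, put
`δ_k = q_k a - p_k`, and let `G_k` be smooth functions of period one with `G_k (w + 1/2) = 1 - G_k (w)`
which take the values `0` and `1` only, off sets of small measure. The time-change function is
`α = 1 + ∑ δ_k G_k' (q_k y - p_k x)`, a function of the base torus; it is smooth if the `δ_k` are small
enough, and for `X = (1, a, 0)` the integral of `α - 1` along the orbit of a point from time `0` to `t`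
is `∑ (u_k (φ_t) - u_k)` with `u_k = G_k (q_k y - p_k x)`.

(1) Almost everywhere all but finitely many of the numbers `u_k` are integers, so
`θ = x + ∑ u_k` is well defined modulo one, and `θ (ψ_s p) = θ (p) + s` modulo one: the time-changed
flow has a non-constant eigenfunction, and it is neither weakly mixing nor mixing.

(2) If `α - c = X u` then `u` is almost everywhere invariant under the finite subgroups of the centre,
by the ergodicity of the nilflow. So `u ∘ φ_n - u` is small in measure for all integers `n` for which
`n a` is close to an integer. But for suitable such `n`, multiples of `q_j`, the integral of `α - 1`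
from time `0` to `n` is close to `1 - 2 u_j`, that is to `1` and to `-1` on two sets of measure about
one half.

(3) The nilflow is uniquely ergodic if `a` is irrational: correlations of functions with non-zero
central frequency decay, so that every invariant measure is invariant under the centre, and its
projection to the torus is invariant under all translations.
-/

set_option autoImplicit false

open MeasureTheory Filter Topology

namespace Pool.Agent.Results.MP_442888_an.NotWeaklyMixing

open Pool.Agent.N256.HN

/-- There are a uniquely ergodic nilflow `nilflow X` on the Heisenberg nilmanifold `Γ \ G` whose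
generator `X` is not central, and a positive smooth function `α` on `Γ \ G` which is not measurably
cohomologous to a constant, such that the time-change `ψ` of the nilflow given by `α` is neither weakly
mixing nor mixing with respect to its invariant probability measure, the one proportional to
`α dμ`. -/
theorem result :
    ∃ (X : ℝ × ℝ × ℝ) (μ : Measure Nil) (α : Nil → ℝ) (ψ : ℝ → Nil → Nil),
      IsHaarNil μ ∧ UniquelyErgodic (nilflow X) μ ∧ (∃ Y, bracket X Y ≠ 0) ∧
      SmoothOnNil α ∧ (∀ p, 0 < α p) ∧ ¬ MeasurablyTrivial (nilflow X) μ α ∧
      IsTimeChange (nilflow X) α ψ ∧ (∀ s t p, ψ s (ψ t p) = ψ (s + t) p) ∧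
      IsProbabilityMeasure (densMeasure μ α) ∧
      (∀ s, MeasurePreserving (ψ s) (densMeasure μ α) (densMeasure μ α)) ∧
      ¬ WeaklyMixing ψ (densMeasure μ α) ∧ ¬ Mixing ψ (densMeasure μ α) := by
  obtain ⟨D⟩ := exists_data
  refine ⟨gen D.a, haarNil, D.α, D.ψ, isHaarNil_haarNil, uniquelyErgodic D.irr, ⟨(0, 1, 0), ?_⟩,
    D.smooth_alpha, D.alpha_pos, D.not_trivial,
    isTimeChange_tcflow (gen D.a) D.continuous_alpha D.alpha_pos,
    fun s t p => tcflow_add (gen D.a) D.continuous_alpha D.alpha_pos s t p,
    isProbabilityMeasure_dens D.continuous_alpha D.alpha_pos, D.mp_ψ, D.not_weaklyMixing,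
    D.not_mixing⟩
  intro h
  have h2 := congrArg (fun v : ℝ × ℝ × ℝ => v.2.2) h
  simp [bracket, gen] at h2

end Pool.Agent.Results.MP_442888_an.NotWeaklyMixing
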